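import Pool.Agent.H.MP_b90300_al.D

set_option autoImplicit false

namespace Pool.Agent.Nf

open CategoryTheory Abelian Pool.Agent.PdOne Pool.Agent.PdFun Pool.Agent.PdSym Pool.Agent.Dep
  RingTheory.Sequence

section gen
variable {S : Type} [CommRing S]

lemma len_le_dim [IsNoetherianRing S] : ∀ (rs : List S) (M : Type) [AddCommGroup M] [Module S M]
    [Module.Finite S M], IsRegular M rs → (rs.length : WithBot ℕ∞) ≤ Module.supportDim S M
  | [], M, _, _, _, h => by
    have : Nontrivial M := h.nontrivial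
    have h1 := Module.supportDim_ne_bot_of_nontrivial S M
    obtain ⟨d, hd⟩ := WithBot.ne_bot_iff_exists.1 h1
    rw [← hd]
    exact WithBot.coe_le_coe.2 zero_le
  | r :: rs, M, _, _, _, h => by
    rw [isRegular_cons_iff] at h
    refine le_trans ?_ (Module.supportDim_quotSMulTop_succ_le_of_notMem_minimalPrimes
      fun _ => h.1.notMem_of_mem_minimalPrimes)
    rw [List.length_cons, Nat.cast_add, Nat.cast_one]
    exact add_le_add_left (len_le_dim rs _ h.2) _

lemma exists_reg [IsNoetherianRing S] {P I : Ideal S} (hI : I ≤ P) (hP : P ≠ ⊤) {n : ℕ} :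
    DP P (S ⧸ I) n ↔ ∃ rs : List S, n ≤ rs.length ∧ (∀ r ∈ rs, r ∈ P) ∧ IsRegular (S ⧸ I) rs := by
  have hs : Module.support S (ModuleCat.of S (S ⧸ P)) = PrimeSpectrum.zeroLocus P := by
    rw [Module.support_eq_zeroLocus, Ideal.annihilator_quotient]
  have hlt : P • (⊤ : Submodule S (ModuleCat.of S (S ⧸ I))) < ⊤ := by
    refine lt_top_iff_ne_top.2 fun h => hP ?_
    have h3 := congrArg (Submodule.comap I.mkQ) h
    rw [Submodule.comap_smul_top_of_surjective P _ (Submodule.mkQ_surjective _),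
      Submodule.ker_mkQ, smul_eq_mul, Ideal.mul_top, Submodule.comap_top] at h3
    rwa [sup_eq_left.2 hI] at h3
  constructor
  · intro h1
    obtain ⟨rs, h2, h3⟩ := ModuleCat.exists_isRegular_of_exists_subsingleton_ext P n
      (ModuleCat.of S (S ⧸ I)) hlt _ hs h1
    exact ⟨rs, h2.ge, h3⟩
  · rintro ⟨rs, h2, h3, h4⟩ i hi
    exact ModuleCat.subsingleton_ext_of_exists_isRegular P _ hs.le
      (ModuleCat.of S (S ⧸ I)) hlt rs h3 h4 i (by omega)

lemma dp_le_dim [IsNoetherianRing S] {P I : Ideal S} (hI : I ≤ P) (hP : P ≠ ⊤) {n : ℕ}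
    (h : DP P (S ⧸ I) n) : (n : WithBot ℕ∞) ≤ ringKrullDim (S ⧸ I) := by
  obtain ⟨rs, h1, -, h2⟩ := (exists_reg hI hP).1 h
  rw [← Module.supportDim_quotient_eq_ringKrullDim]
  exact le_trans (by exact_mod_cast h1) (len_le_dim rs _ h2)

lemma dp_comax {P I : Ideal S} (h : P ⊔ I = ⊤) (n : ℕ) : DP P (S ⧸ I) n := by
  intro i _
  refine subsingleton_of_forall_eq 0 fun x => ?_
  obtain ⟨a, ha, b, hb, hab⟩ := Submodule.mem_sup.1 ((Ideal.eq_top_iff_one _).1 h)
  have h3 : ∀ (J : Ideal S) (g : S), g ∈ J → g • 𝟙 (ModuleCat.of S (S ⧸ J)) = 0 := by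
    intro J g hg
    refine ModuleCat.hom_ext (LinearMap.ext fun y => ?_)
    obtain ⟨y, rfl⟩ := Submodule.mkQ_surjective J y
    change g • J.mkQ y = 0
    rw [← map_smul]
    exact (Submodule.Quotient.mk_eq_zero J).2 (J.mul_mem_right y hg)
  have h1 : a • x = 0 := by
    rw [← Ext.mk₀_id_comp x, ← Ext.smul_comp, ← Ext.mk₀_smul, h3 P a ha, Ext.mk₀_zero,
      Ext.zero_comp]
  have h2 : b • x = 0 := by
    rw [← Ext.comp_mk₀_id x, ← Ext.comp_smul, ← Ext.mk₀_smul, h3 I b hb, Ext.mk₀_zero,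
      Ext.comp_zero]
  rw [← one_smul S x, ← hab, add_smul, h1, h2, add_zero]

variable [IsDomain S]

lemma dim_one {I : Ideal S} (hI : I ≠ ⊥) : ringKrullDim (S ⧸ I) + 1 ≤ ringKrullDim S := by
  obtain ⟨a, ha, h0⟩ := Submodule.exists_mem_ne_zero_of_ne_bot hI
  exact ringKrullDim_succ_le_of_surjective (Ideal.Quotient.mk I) Ideal.Quotient.mk_surjective
    (mem_nonZeroDivisors_of_ne_zero h0) (Ideal.Quotient.eq_zero_iff_mem.2 ha)

variable [UniqueFactorizationMonoid S]

lemma dim_two {I : Ideal S} (hI : I ≠ ⊥) (h : ∀ π, Prime π → ¬ I ≤ Ideal.span {π}) :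
    ringKrullDim (S ⧸ I) + 1 + 1 ≤ ringKrullDim S := by
  classical
  obtain ⟨a, ha, h0⟩ := Submodule.exists_mem_ne_zero_of_ne_bot hI
  obtain ⟨b, hb, hb'⟩ := Set.not_subset.1 (mt (Ideal.subset_union_prime (I := I)
    (s := (UniqueFactorizationMonoid.factors a).toFinset) (f := fun π => Ideal.span {π}) a a
    fun π hπ _ _ => (Ideal.span_singleton_prime (UniqueFactorizationMonoid.prime_of_factor π
      (by simpa using hπ)).ne_zero).2 (UniqueFactorizationMonoid.prime_of_factor π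
      (by simpa using hπ))).1 fun ⟨π, hπ, h1⟩ =>
        h π (UniqueFactorizationMonoid.prime_of_factor π (by simpa using hπ)) h1)
  have hab : IsRelPrime a b := by
    rw [UniqueFactorizationMonoid.isRelPrime_iff_no_prime_factors h0]
    intro d h1 h2 h3
    obtain ⟨π, hπ, h4⟩ := UniqueFactorizationMonoid.exists_mem_factors_of_dvd h0 h3.irreducible h1
    exact hb' (Set.mem_biUnion (x := π) (by simpa using hπ)
      (Ideal.mem_span_singleton.2 (h4.symm.dvd.trans h2)))
  have hle : Ideal.span {a} ≤ I := by simpa using ha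
  refine le_trans (add_le_add_left ?_ _)
    (ringKrullDim_quotient_succ_le_of_nonZeroDivisor (mem_nonZeroDivisors_of_ne_zero h0))
  refine ringKrullDim_succ_le_of_surjective (Ideal.Quotient.factor hle)
    (Ideal.Quotient.factor_surjective hle) (r := Ideal.Quotient.mk _ b) ?_
    (Ideal.Quotient.eq_zero_iff_mem.2 hb)
  refine mem_nonZeroDivisors_iff_right.2 fun z hz => ?_
  obtain ⟨z, rfl⟩ := Ideal.Quotient.mk_surjective z
  rw [← map_mul, Ideal.Quotient.eq_zero_iff_mem, Ideal.mem_span_singleton] at hz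
  exact Ideal.Quotient.eq_zero_iff_mem.2 (Ideal.mem_span_singleton.2 (hab.dvd_of_dvd_mul_right hz))

omit [IsDomain S] in
lemma exists_gcd {Q : Ideal S} (hQ : Q ≠ ⊥) : ∃ (g : S) (J : Ideal S), g ≠ 0 ∧
    Q = Ideal.span {g} * J ∧ ∀ π, Prime π → ¬ J ≤ Ideal.span {π} := by
  obtain ⟨a, ha, h0⟩ := Submodule.exists_mem_ne_zero_of_ne_bot hQ
  obtain ⟨b, ⟨g, h1, h2⟩, hmin⟩ := (wellFounded_dvdNotUnit (α := S)).has_min
    {b | ∃ g, Q ≤ Ideal.span {g} ∧ a = g * b} ⟨a, 1, by simp, by simp⟩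
  have hg : g ≠ 0 := fun e => h0 (by rw [h2, e, zero_mul])
  refine ⟨g, Submodule.comap (LinearMap.mulLeft S g) Q, hg, le_antisymm (fun q hq => ?_) ?_,
    fun π hπ h => ?_⟩
  · obtain ⟨c, rfl⟩ := Ideal.mem_span_singleton.1 (h1 hq)
    exact Ideal.mul_mem_mul (Ideal.mem_span_singleton_self g) hq
  · rw [Ideal.span_singleton_mul_le_iff]
    exact fun z hz => hz
  · obtain ⟨c, hc⟩ := Ideal.mem_span_singleton.1 (h (show g * b ∈ Q from h2 ▸ ha))
    refine hmin c ⟨g * π, fun q hq => ?_, by rw [h2, hc, mul_assoc]⟩ ⟨?_, π, hπ.not_isUnit, ?_⟩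
    · obtain ⟨e, rfl⟩ := Ideal.mem_span_singleton.1 (h1 hq)
      exact Ideal.mem_span_singleton.2 (mul_dvd_mul_left g (Ideal.mem_span_singleton.1 (h hq)))
    · rintro rfl
      exact h0 (by rw [h2, hc]; simp)
    · rw [hc, mul_comm]

end gen

open MvPolynomial

variable {k : Type} [Field k] {n : ℕ}

variable (k n) in
/-- The irrelevant ideal. -/
noncomputable abbrev mm : Ideal (MvPolynomial (Fin n) k) := Ideal.span (Set.range X)

lemma dim_poly : ringKrullDim (MvPolynomial (Fin n) k) = n := by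
  rw [MvPolynomial.ringKrullDim_of_isNoetherianRing, ringKrullDim_eq_zero_of_field]
  simp

lemma dp_lt {I : Ideal (MvPolynomial (Fin n) k)} (h0 : I ≠ ⊥) (hI : I ≤ mm k n) {l : ℕ}
    (h : DP (mm k n) (MvPolynomial (Fin n) k ⧸ I) l) : l + 1 ≤ n := by
  have h1 := (add_le_add_left (dp_le_dim hI max_ne_top h) 1).trans (dim_one h0)
  rw [dim_poly] at h1
  exact_mod_cast h1

lemma dp_principal {g : MvPolynomial (Fin (n + 1)) k} (hg : g ≠ 0) :
    DP (mm k (n + 1)) (MvPolynomial (Fin (n + 1)) k ⧸ Ideal.span {g}) n := by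
  have h1 : DM k (∅ : Set (Fin (n + 1) →₀ ℕ)) (n + 1) := by
    simpa using dm_ind (k := k) Finset.univ (∅ : Set (Fin (n + 1) →₀ ℕ)) (fun _ h => h.elim)
      fun _ _ _ h => h.elim
  rw [DM, show MI k (∅ : Set (Fin (n + 1) →₀ ℕ)) = ⊥ by simp [MI]] at h1
  have := dq_down ⊥ g (fun c hc => by simpa [hg] using hc) h1
  rwa [bot_sup_eq] at this

lemma mm_max : (mm k n).IsMaximal := by
  have : mm k n = RingHom.ker (constantCoeff : MvPolynomial (Fin n) k →+* k) := by
    ext f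
    rw [mm, ← Set.image_univ, mem_ideal_span_X_image, RingHom.mem_ker, constantCoeff_eq]
    constructor
    · intro h
      by_contra h1
      obtain ⟨i, -, h2⟩ := h 0 (mem_support_iff.2 h1)
      simp at h2
    · intro h m hm
      by_contra h1
      push Not at h1
      obtain rfl : m = 0 := Finsupp.ext fun i => h1 i trivial
      exact mem_support_iff.1 hm h
  rw [this]
  exact RingHom.ker_isMaximal_of_surjective _ fun c => ⟨C c, by simp⟩

lemma dp_all {Q : Ideal (MvPolynomial (Fin (n + 1)) k)} (h0 : Q ≠ ⊥) {s : ℕ} (hs : 1 ≤ s)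
    (h : DP (mm k (n + 1)) (MvPolynomial (Fin (n + 1)) k ⧸ Q ^ s) n) (t : ℕ) :
    DP (mm k (n + 1)) (MvPolynomial (Fin (n + 1)) k ⧸ Q ^ t) n := by
  obtain ⟨g, J, hg, rfl, hJ⟩ := exists_gcd h0
  have col : ∀ t c, c ∈ J ^ t ↔ c * g ^ t ∈ (Ideal.span {g} * J) ^ t := by
    intro t c
    rw [mul_pow, Ideal.span_singleton_pow, Ideal.mem_span_singleton_mul]
    refine ⟨fun h => ⟨c, h, mul_comm _ _⟩, fun ⟨z, hz, e⟩ => ?_⟩
    rwa [← mul_left_cancel₀ (pow_ne_zero t hg) (e.trans (mul_comm _ _))]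
  have sup : ∀ t, (Ideal.span {g} * J) ^ t ⊔ Ideal.span {g ^ t} = Ideal.span {g ^ t} := fun t => by
    rw [mul_pow, Ideal.span_singleton_pow]
    exact sup_eq_right.2 Ideal.mul_le_left
  by_cases hm : J ≤ mm k (n + 1)
  · exfalso
    have hJ0 : J ≠ ⊥ := fun e => h0 (by simp [e])
    have h1 : DP (mm k (n + 1)) (MvPolynomial (Fin (n + 1)) k ⧸ J ^ s) n := by
      rcases n with _ | n
      · exact fun i hi => by omega
      · exact dq_colon _ _ _ (col s) h
          ((sup s).symm ▸ (dp_principal (pow_ne_zero s hg)).mono (by omega))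
    have h2 := (add_le_add_left (add_le_add_left (dp_le_dim ((Ideal.pow_le_self (by omega)).trans hm)
      max_ne_top h1) 1) 1).trans (dim_two (pow_ne_zero s hJ0) fun π hπ h3 =>
        hJ π hπ (((Ideal.span_singleton_prime hπ.ne_zero).2 hπ).le_of_pow_le h3))
    rw [dim_poly] at h2
    have : n + 1 + 1 ≤ n + 1 := by exact_mod_cast h2
    omega
  · refine dq_mid _ _ _ (col t) (dp_comax ?_ n) ((sup t).symm ▸ dp_principal (pow_ne_zero t hg))
    refine Ideal.sup_pow_eq_top ?_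
    by_contra h1
    exact hm ((mm_max.eq_of_le h1 le_sup_left).symm ▸ le_sup_right)

lemma homog_le {Q : Ideal (MvPolynomial (Fin n) k)} (h : ∃ s : Set (MvPolynomial (Fin n) k),
    (∀ p ∈ s, ∃ d : ℕ, IsHomogeneous p d) ∧ Q = Ideal.span s) (hQ : Q ≠ ⊤) : Q ≤ mm k n := by
  obtain ⟨s, hs, rfl⟩ := h
  refine Ideal.span_le.2 fun p hp => ?_
  obtain ⟨d, hd⟩ := hs p hp
  rw [SetLike.mem_coe, mm, ← Set.image_univ, mem_ideal_span_X_image]
  intro m hm
  by_contra h1
  push Not at h1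
  obtain rfl : m = 0 := Finsupp.ext fun i => h1 i trivial
  have h2 := hd (mem_support_iff.1 hm)
  obtain rfl : d = 0 := by simpa using h2.symm
  rw [← totalDegree_zero_iff_isHomogeneous, totalDegree_eq_zero_iff_eq_C] at hd
  refine hQ (Ideal.eq_top_of_isUnit_mem _ (Ideal.subset_span hp) ?_)
  rw [hd]
  exact (IsUnit.mk0 _ (mem_support_iff.1 hm)).map C

end Pool.Agent.Nf
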