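import Pool.Agent.H.MP_b90300_al.B

set_option autoImplicit false

namespace Pool.Agent.Nf

open Pool.Agent.PdOne Pool.Agent.PdFun Pool.Agent.PdSym Pool.Agent.Dep MvPolynomial

/-- Numerical data of the construction. -/
structure Dat (σ J : Type) where
  /-- first variable -/
  x : σ
  /-- second variable -/
  y : σ
  /-- extra variables -/
  z : J → σ
  /-- degree -/
  d : ℕ
  /-- positions of the monomial generators -/
  A : ℕ → Prop
  /-- marked positions -/
  C : ℕ → Prop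
  /-- position of the first monomial of a binomial -/
  c : J → ℕ
  /-- position of the second monomial of a binomial -/
  e : J → ℕ
  hxy : x ≠ y
  hx : ∀ j, z j ≠ x
  hy : ∀ j, z j ≠ y
  h0 : A 0
  hd : A d
  hA : ∀ a, A a → a ≤ d
  hC : ∀ a, C a → a ≤ d
  hc : ∀ j, C (c j)
  he : ∀ j, e j ≤ d
  hCC : ∀ a b, C a → C b → SumS A 2 (a + b)
  hce : ∀ a j, C a → SumS A 2 (a + e j)

namespace Dat

variable {σ J : Type} (P : Dat σ J)

/-- Touched positions. -/
def V : ℕ → ℕ → Prop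
  | 0, b => b = 0
  | t + 1, b => SumS P.A (t + 1) b ∨ ∃ s a, P.C s ∧ SumS P.A t a ∧ b = s + a

/-- Positions in height one. -/
def H (t b : ℕ) : Prop := ∃ b' ε, ε ≤ 1 ∧ b = b' + ε ∧ P.V t b'

/-- Model exponent sets. -/
def EH (t : ℕ) (U : ℕ → Prop) : Set (σ →₀ ℕ) := {m | P.d * t + 2 ≤ m P.x + m P.y ∨
  (m P.x + m P.y = P.d * t + 1 ∧ P.H t (m P.y)) ∨ (m P.x + m P.y = P.d * t ∧ U (m P.y))}

/-- Exponents of the powers of the monomial part. -/
def E (t : ℕ) : Set (σ →₀ ℕ) := P.EH t (SumS P.A t)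

/-- First exponent of a binomial. -/
noncomputable def p (j : J) : σ →₀ ℕ :=
  ex P.x P.y (P.d - P.c j) (P.c j) + Finsupp.single (P.z j) 1

/-- Second exponent of a binomial. -/
noncomputable def q (j : J) : σ →₀ ℕ := ex P.x P.y (P.d + 1 - P.e j) (P.e j)

variable {P}

lemma V_of {t b : ℕ} (h : SumS P.A t b) : P.V t b := by
  cases t
  · exact h
  · exact Or.inl h

lemma V_add : ∀ {t s a b : ℕ}, P.V t b → SumS P.A s a → P.V (s + t) (b + a)
  | 0, _, _, _, h1, h2 => by
    obtain rfl : _ = 0 := h1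
    simpa using V_of h2
  | _ + 1, _, _, _, Or.inl h1, h2 => Or.inl (h1.add h2)
  | _ + 1, _, _, _, Or.inr ⟨c, a, h, h1, e⟩, h2 => Or.inr ⟨c, _, h, h1.add h2, by omega⟩

lemma V_c : ∀ {t b s : ℕ}, P.V t b → P.C s → P.V (t + 1) (b + s)
  | 0, _, s, h1, h2 => Or.inr ⟨s, 0, h2, rfl, by obtain rfl : _ = 0 := h1; omega⟩
  | _ + 1, b, s, Or.inl h1, h2 => Or.inr ⟨s, b, h2, h1, add_comm _ _⟩
  | _ + 1, b, s, Or.inr ⟨c, a, h, h1, e⟩, h2 => Or.inl (by
      rw [show b + s = (c + s) + a by omega]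
      exact (P.hCC _ _ h h2).add h1)

lemma p_x (j : J) : P.p j P.x = P.d - P.c j := by
  simp [p, ex_x P.hxy, Finsupp.single_eq_of_ne (P.hx j).symm]
lemma p_y (j : J) : P.p j P.y = P.c j := by
  simp [p, ex_y P.hxy, Finsupp.single_eq_of_ne (P.hy j).symm]
lemma q_x (j : J) : P.q j P.x = P.d + 1 - P.e j := ex_x P.hxy _ _
lemma q_y (j : J) : P.q j P.y = P.e j := ex_y P.hxy _ _

lemma EH_up {t : ℕ} {U : ℕ → Prop} (hU : ∀ b, U b → P.V t b) : Up (P.EH t U) := by
  intro m hm m'
  simp only [EH, Set.mem_ofPred_eq, Finsupp.add_apply] at hm ⊢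
  by_cases h : m' P.x + m' P.y = 0
  · rwa [show m' P.x = 0 by omega, show m' P.y = 0 by omega]
  rcases hm with hm | ⟨h1, -⟩ | ⟨h1, h2⟩
  · left; omega
  · left; omega
  · by_cases h3 : m' P.x + m' P.y = 1
    · exact Or.inr (Or.inl ⟨by omega, _, m' P.y, by omega, rfl, hU _ h2⟩)
    · left; omega

lemma E_up (t : ℕ) : Up (P.E t) := EH_up fun _ => V_of

lemma E_zero (m : σ →₀ ℕ) : m ∈ P.E 0 := by
  simp only [E, EH, Set.mem_ofPred_eq, mul_zero]
  by_cases h : m P.x + m P.y = 0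
  · exact Or.inr (Or.inr ⟨h, by change m P.y = 0; omega⟩)
  by_cases h1 : m P.x + m P.y = 1
  · exact Or.inr (Or.inl ⟨h1, 0, m P.y, by omega, by omega, rfl⟩)
  · left; omega

lemma E_succ (t : ℕ) (m : σ →₀ ℕ) : m ∈ P.E (t + 1) ↔ ∃ a ∈ P.E t, ∃ b ∈ P.E 1, a + b = m := by
  constructor
  · intro hm
    rcases t with _ | t
    · exact ⟨0, E_zero _, m, hm, by simp⟩
    have key : ∀ a', P.A a' → a' ≤ m P.y → P.d - a' ≤ m P.x →
        (∀ n : σ →₀ ℕ, n P.x + (P.d - a') = m P.x → n P.y + a' = m P.y → n ∈ P.E (t + 1)) →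
        ∃ a ∈ P.E (t + 1), ∃ b ∈ P.E 1, a + b = m := by
      intro a' ha h1 h2 h3
      obtain ⟨n, hn⟩ := le_iff_exists_add.1 (ex_le P.hxy h2 h1)
      have := P.hA _ ha
      refine ⟨n, h3 n ?_ ?_, ex P.x P.y (P.d - a') a', ?_, by rw [hn, add_comm]⟩
      · rw [hn, Finsupp.add_apply, ex_x P.hxy]; omega
      · rw [hn, Finsupp.add_apply, ex_y P.hxy]; omega
      · simp only [E, EH, Set.mem_ofPred_eq, ex_x P.hxy, ex_y P.hxy]
        exact Or.inr (Or.inr ⟨by omega, SumS.one.2 ha⟩)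
    have hd : P.d ≤ P.d * (t + 1) := Nat.le_mul_of_pos_right _ (by omega)
    simp only [E, EH, Set.mem_ofPred_eq, Nat.mul_succ _ (t + 1)] at hm
    rcases hm with h | ⟨h, b', ε, h1, h2, ⟨a', ha, r, hr, e⟩ | ⟨s, _, hs, ⟨a', ha, r, hr, rfl⟩, e⟩⟩ |
      ⟨h, a', ha, r, hr, e⟩
    · by_cases h1 : P.d ≤ m P.x
      · exact key 0 P.h0 (by omega) (by omega) fun n h2 h3 => Or.inl (by omega)
      · exact key P.d P.hd (by omega) (by omega) fun n h2 h3 => Or.inl (by omega)
    · have := hr.le P.hA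
      have := P.hA _ ha
      exact key a' ha (by omega) (by omega) fun n h3 h4 =>
        Or.inr (Or.inl ⟨by omega, r, ε, h1, by omega, V_of hr⟩)
    · have := hr.le P.hA
      have := P.hA _ ha
      have := P.hC _ hs
      rw [Nat.mul_succ] at h
      exact key a' ha (by omega) (by omega) fun n h3 h4 => Or.inr (Or.inl
        ⟨by rw [Nat.mul_succ]; omega, s + r, ε, h1, by omega, Or.inr ⟨s, r, hs, hr, rfl⟩⟩)
    · have := hr.le P.hA
      have := P.hA _ ha
      exact key a' ha (by omega) (by omega) fun n h3 h4 =>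
        Or.inr (Or.inr ⟨by omega, by rwa [show n P.y = r by omega]⟩)
  · rintro ⟨a, ha, b, hb, rfl⟩
    simp only [E, EH, Set.mem_ofPred_eq, Nat.mul_succ, Finsupp.add_apply, mul_zero,
      zero_add] at ha hb ⊢
    rcases ha with ha | ⟨ha, a', ε, h1, h2, h3⟩ | ⟨ha, h1⟩ <;>
      rcases hb with hb | ⟨hb, b', ε', h4, h5, h6⟩ | ⟨hb, h4⟩
    any_goals left; omega
    · exact Or.inr (Or.inl ⟨by omega, _, ε, h1, by omega, add_comm 1 t ▸ V_add h3 h4⟩)
    · exact Or.inr (Or.inl ⟨by omega, _, ε', h4, by omega, V_add h6 h1⟩)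
    · exact Or.inr (Or.inr ⟨by omega, add_comm (a P.y) _ ▸ h4.add h1⟩)

lemma p_mem {t : ℕ} {n : σ →₀ ℕ} (h : n ∈ P.E t) (j : J) :
    n + P.p j ∈ P.E (t + 1) ∨ (n P.x + n P.y = P.d * t ∧ SumS P.A t (n P.y)) := by
  have := P.hC _ (P.hc j)
  simp only [E, EH, Set.mem_ofPred_eq, Nat.mul_succ, Finsupp.add_apply, p_x, p_y] at h ⊢
  rcases h with h | ⟨h, b, ε, h1, h2, h3⟩ | h
  · left; left; omega
  · exact Or.inl (Or.inr (Or.inl ⟨by omega, _, ε, h1, by omega, V_c h3 (P.hc j)⟩))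
  · exact Or.inr h

variable {k : Type} [Field k]

lemma MI_E_pow : ∀ t, MI k (P.E 1) ^ t = MI k (P.E t)
  | 0 => by
    rw [pow_zero, Ideal.one_eq_top, eq_comm, eq_top_iff]
    exact fun f _ => (mem_MI (E_up 0)).2 fun _ _ => E_zero _
  | t + 1 => by
    rw [pow_succ, MI_E_pow t]
    exact MI_mul (E_succ t)

variable (P k) in
/-- The binomial generators. -/
noncomputable def g (j : J) : MvPolynomial σ k := monomial (P.p j) 1 + monomial (P.q j) 1

variable (P k) in
/-- The ideal of the binomials. -/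
noncomputable def G : Ideal (MvPolynomial σ k) := Ideal.span (Set.range (P.g k))

variable (P k) in
/-- Model ideals. -/
noncomputable def II (t : ℕ) (U : ℕ → Prop) : Ideal (MvPolynomial σ k) :=
  MI k (P.EH (t + 1) U) ⊔ MI k (P.E t) * P.G k

lemma GG_le : P.G k * P.G k ≤ MI k (P.E 2) := by
  rw [G, Ideal.span_mul_span', Ideal.span_le]
  rintro _ ⟨_, ⟨i, rfl⟩, _, ⟨j, rfl⟩, rfl⟩
  have h1 := P.hC _ (P.hc i)
  have h2 := P.hC _ (P.hc j)
  have h3 := P.he i
  have h4 := P.he j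
  simp only [g, add_mul, mul_add, monomial_mul, mul_one, SetLike.mem_coe]
  refine Ideal.add_mem _ (Ideal.add_mem _ ?_ ?_) (Ideal.add_mem _ ?_ ?_) <;> refine mono_mem_MI ?_ <;>
    simp only [E, EH, Set.mem_ofPred_eq, Finsupp.add_apply, p_x, p_y, q_x, q_y]
  · exact Or.inr (Or.inr ⟨by omega, P.hCC _ _ (P.hc i) (P.hc j)⟩)
  · exact Or.inr (Or.inl ⟨by omega, _, 0, by omega, add_comm _ _, V_of (P.hce _ i (P.hc j))⟩)
  · exact Or.inr (Or.inl ⟨by omega, _, 0, by omega, rfl, V_of (P.hce _ j (P.hc i))⟩)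
  · left; omega

lemma Q_pow : ∀ t, (MI k (P.E 1) ⊔ P.G k) ^ (t + 1) = P.II k t (SumS P.A (t + 1))
  | 0 => by rw [II, ← MI_E_pow 0]; simp [E]
  | t + 1 => by
    rw [pow_succ, Q_pow t, II, II, ← E, ← E, ← MI_E_pow (t + 1 + 1), ← MI_E_pow (t + 1),
      ← MI_E_pow t, Ideal.sup_mul, Ideal.mul_sup, Ideal.mul_sup, ← pow_succ, mul_right_comm,
      ← pow_succ, mul_assoc]
    refine le_antisymm (sup_le le_rfl (sup_le le_sup_right (le_sup_of_le_left ?_))) le_sup_left
    rw [show t + 1 + 1 = t + 2 from rfl, pow_add, MI_E_pow 2]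
    exact Ideal.mul_mono_right GG_le

lemma mul_G_le {t : ℕ} {W : Submodule k (MvPolynomial σ k)}
    (h : ∀ n ∈ P.E t, ∀ j, monomial (n + P.p j) (1 : k) + monomial (n + P.q j) 1 ∈ W)
    {f : MvPolynomial σ k} (hf : f ∈ MI k (P.E t) * P.G k) : f ∈ W := by
  refine Submodule.mul_induction_on hf (fun a ha b hb => ?_) fun _ _ => W.add_mem
  induction hb using Submodule.span_induction generalizing a with
  | mem b hb =>
    obtain ⟨j, rfl⟩ := hb
    rw [a.as_sum, Finset.sum_mul]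
    refine W.sum_mem fun n hn => ?_
    have := W.smul_mem (coeff n a) (h n ((mem_MI (E_up t)).1 ha n hn) j)
    simpa [g, mul_add, monomial_mul, smul_monomial] using this
  | zero => simp
  | add b c _ _ hb hc => rw [mul_add]; exact W.add_mem (hb a ha) (hc a ha)
  | smul r b _ hb =>
    rw [smul_eq_mul, ← mul_assoc]
    exact hb _ (Ideal.mul_mem_right _ _ ha)

lemma gen_mem {t : ℕ} {U : ℕ → Prop} {n : σ →₀ ℕ} (h : n ∈ P.E t) (j : J) :
    monomial (n + P.p j) (1 : k) + monomial (n + P.q j) 1 ∈ P.II k t U := by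
  have : monomial n (1 : k) * P.g k j ∈ P.II k t U :=
    Ideal.mem_sup_right (Ideal.mul_mem_mul (mono_mem_MI h) (Ideal.subset_span ⟨j, rfl⟩))
  simpa [g, mul_add, monomial_mul] using this

lemma lam_MI {E : Set (σ →₀ ℕ)} (hE : Up E) (lam : MvPolynomial σ k →ₗ[k] k)
    (h : ∀ n ∈ E, lam (monomial n 1) = 0) {f : MvPolynomial σ k} (hf : f ∈ MI k E) :
    lam f = 0 := by
  rw [f.as_sum, map_sum]
  refine Finset.sum_eq_zero fun n hn => ?_
  rw [← mul_one (coeff n f), ← smul_eq_mul, ← smul_monomial, map_smul,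
    h n ((mem_MI hE).1 hf n hn), smul_zero]

variable [Fintype J] [DecidableEq σ]

open Classical in
variable (P) in
/-- Variables in the colon ideal. -/
noncomputable def F (t b : ℕ) : Finset σ := (Finset.univ.filter fun j =>
  ∃ a, SumS P.A t a ∧ b = P.c j + a ∧ P.H (t + 1) (P.e j + a)).image P.z

lemma mem_F {t b : ℕ} {s : σ} : s ∈ P.F t b ↔
    ∃ j, (∃ a, SumS P.A t a ∧ b = P.c j + a ∧ P.H (t + 1) (P.e j + a)) ∧ P.z j = s := by
  simp [F]

lemma colon {t b : ℕ} {U : ℕ → Prop} (hU : ∀ a, U a → P.V (t + 1) a)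
    (hU' : ∀ a, SumS P.A (t + 1) a → U a) (hb : b ≤ P.d * (t + 1)) (h1 : P.V (t + 1) b)
    (h2 : ¬ U b) (uq : ∀ j j' a a', SumS P.A t a → SumS P.A t a' → P.e j + a = P.e j' + a' →
      ¬ P.H (t + 1) (P.e j + a) → j = j') (h : MvPolynomial σ k) :
    h ∈ MI k (VG (insert P.x (insert P.y (P.F t b)))) ↔
      h * monomial (ex P.x P.y (P.d * (t + 1) - b) b) 1 ∈ P.II k t U := by
  classical
  have ex1 := ex_x P.hxy (P.d * (t + 1) - b) b
  have ex2 := ex_y P.hxy (P.d * (t + 1) - b) b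
  constructor
  · intro hh
    rw [MI_VG] at hh
    refine Submodule.span_induction (p := fun r _ => r * monomial _ 1 ∈ P.II k t U) ?_ (by simp)
      (fun a b _ _ ha hb => by rw [add_mul]; exact Ideal.add_mem _ ha hb)
      (fun a b _ hb => by rw [smul_eq_mul, mul_assoc]; exact Ideal.mul_mem_left _ _ hb) hh
    rintro _ ⟨s, hs, rfl⟩
    rw [X, monomial_mul, mul_one]
    simp only [Finset.coe_insert, Set.mem_insert_iff, Finset.mem_coe, mem_F] at hs
    rcases hs with rfl | rfl | ⟨j, ⟨a, h3, h4, h5⟩, rfl⟩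
    · refine Ideal.mem_sup_left (mono_mem_MI (Or.inr (Or.inl ?_)))
      simp only [Finsupp.add_apply, ex1, ex2, Finsupp.single_eq_same,
        Finsupp.single_eq_of_ne P.hxy.symm]
      exact ⟨by omega, b, 0, by omega, by omega, h1⟩
    · refine Ideal.mem_sup_left (mono_mem_MI (Or.inr (Or.inl ?_)))
      simp only [Finsupp.add_apply, ex1, ex2, Finsupp.single_eq_same,
        Finsupp.single_eq_of_ne P.hxy]
      exact ⟨by omega, b, 1, by omega, by omega, h1⟩
    · have h6 := h3.le P.hA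
      have h7 := P.hC _ (P.hc j)
      have h8 := P.he j
      have h9 : ex P.x P.y (P.d * t - a) a ∈ P.E t := Or.inr (Or.inr (by
        rw [ex_x P.hxy, ex_y P.hxy]; exact ⟨by omega, h3⟩))
      have h10 : Finsupp.single (P.z j) 1 + ex P.x P.y (P.d * (t + 1) - b) b =
          ex P.x P.y (P.d * t - a) a + P.p j := by
        rw [show P.d * (t + 1) - b = (P.d * t - a) + (P.d - P.c j) by rw [Nat.mul_succ]; omega, h4]
        simp only [p, ex, Finsupp.single_add]
        abel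
      rw [h10]
      refine (Ideal.add_mem_iff_left _ (Ideal.mem_sup_left (mono_mem_MI (Or.inr (Or.inl ?_))))).1
        (gen_mem h9 j)
      simp only [Finsupp.add_apply, ex_x P.hxy, ex_y P.hxy, q_x, q_y, Nat.mul_succ]
      exact ⟨by omega, add_comm a _ ▸ h5⟩
  · intro hh
    refine (mem_MI (VG_up _)).2 fun ζ hζ => by_contra fun h3 => ?_
    have h4 : ∀ s ∈ insert P.x (insert P.y (P.F t b)), ζ s = 0 := fun s hs =>
      by_contra fun h' => h3 ⟨s, hs, h'⟩
    have h5 := h4 P.x (by simp)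
    have h6 := h4 P.y (by simp)
    set μ := ex P.x P.y (P.d * (t + 1) - b) b
    let R : (σ →₀ ℕ) → Prop := fun n => ∃ j n', (n' P.x + n' P.y = P.d * t ∧ SumS P.A t (n' P.y)) ∧
      n' + P.p j = ζ + μ ∧ n = n' + P.q j ∧ ¬ P.H (t + 1) (n P.y)
    let ψ : (σ →₀ ℕ) → k := fun n => if n = ζ + μ then 1 else if R n then -1 else 0
    let lam : MvPolynomial σ k →ₗ[k] k := (basisMonomials σ k).constr k ψ
    have hl : ∀ n, lam (monomial n 1) = ψ n := fun n => (basisMonomials σ k).constr_basis k ψ n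
    have Rd : ∀ n, R n → n P.x + n P.y = P.d * (t + 1) + 1 ∧ ¬ P.H (t + 1) (n P.y) := by
      rintro _ ⟨j, n', a1, -, rfl, a2⟩
      have := P.he j
      refine ⟨?_, a2⟩
      simp only [Finsupp.add_apply, q_x, q_y, Nat.mul_succ]
      omega
    have z1 : ∀ n ∈ P.EH (t + 1) U, ψ n = 0 := by
      intro n hn
      refine (if_neg ?_).trans (if_neg fun hR => ?_)
      · rintro rfl
        simp only [EH, Set.mem_ofPred_eq, Finsupp.add_apply, h5, h6, ex1, ex2, zero_add] at hn
        rcases hn with hn | hn | hn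
        · omega
        · omega
        · exact h2 hn.2
      · obtain ⟨a1, a2⟩ := Rd n hR
        rcases hn with hn | hn | hn
        · omega
        · exact a2 hn.2
        · omega
    have sub : ∀ n ∈ P.E (t + 1), n ∈ P.EH (t + 1) U := fun n hn =>
      hn.imp_right (Or.imp_right (And.imp_right (hU' _)))
    have z2 : ∀ n ∈ P.E t, ∀ j, ψ (n + P.p j) + ψ (n + P.q j) = 0 := by
      intro n hn j
      have a3 := P.hC _ (P.hc j)
      have a4 := P.he j
      by_cases hex : n P.x + n P.y = P.d * t ∧ SumS P.A t (n P.y)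
      swap
      · rw [z1 _ (sub _ ((p_mem hn j).resolve_right hex)), z1 _ (Or.inl ?_), add_zero]
        simp only [Finsupp.add_apply, q_x, q_y, Nat.mul_succ]
        rcases hn with hn | hn | hn
        · omega
        · omega
        · exact absurd hn hex
      have a5 : n + P.q j ≠ ζ + μ := fun e => by
        have e1 := DFunLike.congr_fun e P.x
        have e2 := DFunLike.congr_fun e P.y
        simp only [Finsupp.add_apply, q_x, q_y, h5, h6, ex1, ex2, Nat.mul_succ] at e1 e2 hb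
        omega
      by_cases e : n + P.p j = ζ + μ
      · have a6 : R (n + P.q j) := by
          refine ⟨j, n, hex, e, rfl, fun hH => ?_⟩
          have e2 := DFunLike.congr_fun e P.y
          have e3 := DFunLike.congr_fun e (P.z j)
          simp only [Finsupp.add_apply, p_y, h6, ex2, q_y] at e2 hH
          have := h4 (P.z j) (Finset.mem_insert_of_mem (Finset.mem_insert_of_mem
            (mem_F.2 ⟨j, ⟨_, hex.2, by omega, add_comm (n P.y) _ ▸ hH⟩, rfl⟩)))
          simp [p, μ, this, ex_z (P.hx j) (P.hy j)] at e3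
        simp [ψ, e, a5, a6]
      · have a6 : ¬ R (n + P.p j) := fun hR => by
          have := (Rd _ hR).1
          simp only [Finsupp.add_apply, p_x, p_y, Nat.mul_succ] at this
          omega
        have a7 : ¬ R (n + P.q j) := by
          rintro ⟨j', n', b1, b2, b3, b4⟩
          have e2 := DFunLike.congr_fun b3 P.y
          simp only [Finsupp.add_apply, q_y] at e2 b4
          obtain rfl := uq j j' _ _ hex.2 b1.2 (by omega) (add_comm (n P.y) _ ▸ b4)
          exact e (add_right_cancel b3 ▸ b2)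
        simp [ψ, e, a5, a6, a7]
    have z3 : lam (h * monomial μ 1) = 0 := by
      obtain ⟨f1, hf1, f2, hf2, e⟩ := Submodule.mem_sup.1 hh
      rw [← e, map_add, lam_MI (EH_up hU) lam (fun n hn => (hl n).trans (z1 n hn)) hf1, zero_add]
      exact mul_G_le (W := LinearMap.ker lam) (fun n hn j => by
        rw [LinearMap.mem_ker, map_add, hl, hl, z2 n hn j]) hf2
    rw [h.as_sum, Finset.sum_mul, map_sum, Finset.sum_eq_single_of_mem ζ hζ] at z3
    · rw [monomial_mul, ← smul_eq_mul, ← smul_monomial, map_smul, hl] at z3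
      exact mem_support_iff.1 hζ (by simpa [ψ] using z3)
    · intro n _ hn
      rw [monomial_mul, ← smul_eq_mul, ← smul_monomial, map_smul, hl]
      refine smul_eq_zero_of_right _ ((if_neg fun e => hn (add_right_cancel e)).trans
        (if_neg fun hR => ?_))
      obtain ⟨a1, a2⟩ := Rd _ hR
      simp only [Finsupp.add_apply, ex1, ex2] at a1 a2
      exact a2 ⟨b, n P.y, by omega, add_comm _ _, h1⟩

end Dat

end Pool.Agent.Nf
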