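import Pool.Agent.H.MP_07d438_ag.B
import Pool.Agent.H.MP_9d9f8d_ag.B

set_option autoImplicit false

namespace Pool.Agent.Nf

open Pool.Agent.PdOne Pool.Agent.PdFun Pool.Agent.PdSym Pool.Agent.Dep MvPolynomial

namespace Dat

variable {σ J : Type} {P : Dat σ J} {k : Type} [Field k]

lemma sup_II {t b : ℕ} {U U' : ℕ → Prop} (hb : b ≤ P.d * (t + 1)) (hU : ∀ a, U' a ↔ U a ∨ a = b) :
    P.II k t U ⊔ Ideal.span {monomial (ex P.x P.y (P.d * (t + 1) - b) b) 1} = P.II k t U' := by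
  rw [II, II, sup_right_comm]
  congr 1
  apply le_antisymm
  · refine sup_le (MI_mono fun m hm => hm.imp_right (Or.imp_right
      (And.imp_right fun h => (hU _).2 (Or.inl h)))) ?_
    rw [Ideal.span_le, Set.singleton_subset_iff]
    refine mono_mem_MI (Or.inr (Or.inr ?_))
    rw [ex_x P.hxy, ex_y P.hxy]
    exact ⟨by omega, (hU _).2 (Or.inr rfl)⟩
  · refine Ideal.span_le.2 ?_
    rintro _ ⟨m, hm, rfl⟩
    rcases hm with h | h | ⟨h1, h⟩
    · exact Ideal.mem_sup_left (mono_mem_MI (Or.inl h))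
    · exact Ideal.mem_sup_left (mono_mem_MI (Or.inr (Or.inl h)))
    rcases (hU _).1 h with h | h
    · exact Ideal.mem_sup_left (mono_mem_MI (Or.inr (Or.inr ⟨h1, h⟩)))
    · obtain ⟨c, hc⟩ := le_iff_exists_add.1
        (ex_le P.hxy (m := m) (a := P.d * (t + 1) - b) (b := b) (by omega) (by omega))
      refine Ideal.mem_sup_right (Ideal.mem_span_singleton'.2 ⟨monomial c 1, ?_⟩)
      rw [monomial_mul, add_comm, ← hc, mul_one]

lemma II_base (t : ℕ) : P.II k t (P.V (t + 1)) =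
    MI k (P.EH (t + 1) (P.V (t + 1)) ∪ {m | ∃ j, ∃ n ∈ P.E t, n + P.q j = m}) := by
  have hp : ∀ n ∈ P.E t, ∀ j, n + P.p j ∈ P.EH (t + 1) (P.V (t + 1)) := by
    intro n hn j
    rcases p_mem hn j with h | ⟨h1, h2⟩
    · exact h.imp_right (Or.imp_right (And.imp_right V_of))
    · have := P.hC _ (P.hc j)
      refine Or.inr (Or.inr ?_)
      simp only [Finsupp.add_apply, p_x, p_y, Nat.mul_succ]
      exact ⟨by omega, Or.inr ⟨_, _, P.hc j, h2, add_comm _ _⟩⟩
  apply le_antisymm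
  · refine sup_le (MI_mono Set.subset_union_left) fun f hf => ?_
    exact mul_G_le (W := Submodule.restrictScalars k (MI k _)) (fun n hn j => Ideal.add_mem _
      (mono_mem_MI (Or.inl (hp n hn j))) (mono_mem_MI (Or.inr ⟨j, n, hn, rfl⟩))) hf
  · refine Ideal.span_le.2 ?_
    rintro _ ⟨m, hm | ⟨j, n, hn, rfl⟩, rfl⟩
    · exact Ideal.mem_sup_left (mono_mem_MI hm)
    · exact (Ideal.add_mem_iff_right _ (Ideal.mem_sup_left (mono_mem_MI (hp n hn j)))).1
        (gen_mem hn j)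

lemma EH_ind (t : ℕ) (U : ℕ → Prop) {s : σ} (h1 : s ≠ P.x) (h2 : s ≠ P.y) : Ind (P.EH t U) s := by
  intro m hm
  simpa only [EH, Set.mem_ofPred_eq, Finsupp.add_apply, Finsupp.single_eq_of_ne h1.symm,
    Finsupp.single_eq_of_ne h2.symm, add_zero] using hm

variable [Fintype σ] [DecidableEq σ]

lemma dp_base (t : ℕ) {r : ℕ} (hr : r + 2 ≤ Fintype.card σ) :
    DP (Ideal.span (Set.range (X : σ → MvPolynomial σ k))) (MvPolynomial σ k ⧸ P.II k t (P.V (t + 1))) r := by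
  rw [II_base]
  refine (dm_ind (k := k) {P.x, P.y}ᶜ _ (Up.union (EH_up fun _ h => h) ?_) fun s hs => ?_).mono ?_
  · rintro _ ⟨j, n, hn, rfl⟩ m'
    exact ⟨j, n + m', E_up t n hn m', by abel⟩
  · simp only [Finset.mem_compl, Finset.mem_insert, Finset.mem_singleton, not_or] at hs
    rintro m (hm | ⟨j, n, hn, e⟩)
    · exact Or.inl (EH_ind _ _ hs.1 hs.2 m hm)
    · have e1 := DFunLike.congr_fun e s
      simp only [Finsupp.add_apply, q, ex_z hs.1 hs.2, Finsupp.single_eq_same] at e1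
      obtain ⟨n', rfl⟩ := ex_add (m := n) (x := s) (c := 1) (by omega)
      exact Or.inr ⟨j, n', EH_ind _ _ hs.1 hs.2 _ hn, add_right_cancel
        ((add_right_comm _ _ _).trans e)⟩
  · rw [Finset.card_compl, Finset.card_pair P.hxy]
    omega

lemma VG_ind {G : Finset σ} : ∀ y ∈ Gᶜ, Ind (VG G) y := fun _ hy =>
  dep_ind (VG_dep G) (Finset.mem_compl.1 hy)

variable [Fintype J]

omit [Fintype σ] in
lemma card_F (t b : ℕ) : (insert P.x (insert P.y (P.F t b))).card = (P.F t b).card + 2 :=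
  card_G P.hxy (fun h => by obtain ⟨j, -, e⟩ := mem_F.1 h; exact P.hx j e)
    fun h => by obtain ⟨j, -, e⟩ := mem_F.1 h; exact P.hy j e

variable {t φ r : ℕ} (uq : ∀ j j' a a', SumS P.A t a → SumS P.A t a' → P.e j + a = P.e j' + a' →
      ¬ P.H (t + 1) (P.e j + a) → j = j')
  (up : ∀ b, P.V (t + 1) b → ¬ SumS P.A (t + 1) b → (P.F t b).card ≤ φ)
  (hr : r + φ + 2 = Fintype.card σ)

omit [Fintype σ] [DecidableEq σ] [Fintype J] in
lemma V_le {t b : ℕ} (h : P.V (t + 1) b) : b ≤ P.d * (t + 1) := by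
  rcases h with h | ⟨s, a, h1, h2, rfl⟩
  · exact h.le P.hA
  · have := h2.le P.hA
    have := P.hC _ h1
    rw [Nat.mul_succ]; omega

include uq up hr in
lemma dp_aux (S : Finset ℕ) : (∀ b ∈ S, P.V (t + 1) b ∧ ¬ SumS P.A (t + 1) b) →
    DP (Ideal.span (Set.range (X : σ → MvPolynomial σ k))) (MvPolynomial σ k ⧸
      P.II k t fun b => P.V (t + 1) b ∧ b ∉ S) r := by
  induction S using Finset.induction_on with
  | empty =>
    intro _
    rw [show (fun b => P.V (t + 1) b ∧ b ∉ (∅ : Finset ℕ)) = P.V (t + 1) by simp]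
    exact dp_base t (by omega)
  | insert b S hb ih =>
    intro h
    obtain ⟨h1, h2⟩ := h b (by simp)
    refine dq_mid _ _ _ (colon (fun _ h => h.1) (fun a ha => ⟨V_of ha, fun h3 => (h a h3).2 ha⟩)
      (V_le h1) h1 (by simp) uq) ((dm_ind _ _ (VG_up _) VG_ind).mono ?_) ?_
    · have := up b h1 h2
      rw [Finset.card_compl, card_F]
      omega
    · rw [sup_II (V_le h1) (U' := fun a => P.V (t + 1) a ∧ a ∉ S)]
      · exact ih fun a ha => h a (by simp [ha])
      · intro a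
        by_cases e : a = b
        · simp [e, hb, h1]
        · simp [e]

include uq up hr in
lemma dp_II {U : ℕ → Prop} (h1 : ∀ a, U a → P.V (t + 1) a) (h2 : ∀ a, SumS P.A (t + 1) a → U a) :
    DP (Ideal.span (Set.range (X : σ → MvPolynomial σ k))) (MvPolynomial σ k ⧸ P.II k t U) r := by
  classical
  have := dp_aux (k := k) uq up hr ((Finset.range (P.d * (t + 1) + 1)).filter
    fun b => P.V (t + 1) b ∧ ¬ U b) fun b hb => by
      have := (Finset.mem_filter.1 hb).2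
      exact ⟨this.1, fun h => this.2 (h2 b h)⟩
  rw [show U = fun b => P.V (t + 1) b ∧ b ∉ (Finset.range (P.d * (t + 1) + 1)).filter
    fun b => P.V (t + 1) b ∧ ¬ U b from funext fun b => propext ?_]
  · exact this
  simp only [Finset.mem_filter, Finset.mem_range]
  refine ⟨fun h => ⟨h1 b h, fun h' => h'.2.2 h⟩, fun h => by_contra fun h' => h.2 ⟨?_, h.1, h'⟩⟩
  have := V_le h.1
  omega

include uq up hr in
theorem depth_pow (low : ∃ b, P.V (t + 1) b ∧ ¬ SumS P.A (t + 1) b ∧ φ ≤ (P.F t b).card) :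
    DP (Ideal.span (Set.range (X : σ → MvPolynomial σ k))) (MvPolynomial σ k ⧸ (MI k (P.E 1) ⊔ P.G k) ^ (t + 1)) r ∧
    ¬ DP (Ideal.span (Set.range (X : σ → MvPolynomial σ k)))
      (MvPolynomial σ k ⧸ (MI k (P.E 1) ⊔ P.G k) ^ (t + 1)) (r + 1) := by
  rw [Q_pow]
  refine ⟨dp_II uq up hr (fun _ => V_of) fun _ h => h, fun h => ?_⟩
  obtain ⟨b, h1, h2, h3⟩ := low
  have h4 := dq_colon _ _ _ (colon (fun _ => V_of) (fun _ h => h) (V_le h1) h1 h2 uq) h (by
    rw [sup_II (V_le h1) (U' := fun a => SumS P.A (t + 1) a ∨ a = b) fun _ => Iff.rfl]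
    exact dp_II uq up hr (fun a ha => ha.elim V_of fun e => e ▸ h1) fun _ => Or.inl)
  refine not_dm (k := k) _ (VG_up _) VG_ind 0 (fun ⟨_, _, h⟩ => h rfl) (fun _ _ => rfl)
    (fun s hs => ⟨1, s, by_contra fun h => hs (Finset.mem_compl.2 h), by simp⟩) (DM.mono h4 ?_)
  rw [Finset.card_compl, card_F]
  omega

omit [Fintype σ] [DecidableEq σ] [Fintype J] in
lemma homog : ∃ s : Set (MvPolynomial σ k), (∀ p ∈ s, ∃ d : ℕ, IsHomogeneous p d) ∧
    MI k (P.E 1) ⊔ P.G k = Ideal.span s := by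
  refine ⟨_, ?_, (Ideal.span_union _ _).symm⟩
  rintro _ (⟨m, -, rfl⟩ | ⟨j, rfl⟩)
  · exact ⟨_, isHomogeneous_monomial _ rfl⟩
  · have := P.hC _ (P.hc j)
    have := P.he j
    refine ⟨P.d + 1, (isHomogeneous_monomial _ ?_).add (isHomogeneous_monomial _ ?_)⟩
    · simp only [p, ex, map_add, Finsupp.degree_single]; omega
    · simp only [q, ex, map_add, Finsupp.degree_single]; omega

end Dat

end Pool.Agent.Nf
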