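import Pool.Agent.H.MP_07d438_ag.A
import Pool.Agent.H.MP_07d438_ag.C

set_option autoImplicit false

namespace Pool.Agent.Nf

open Pool.Agent.PdOne Pool.Agent.PdFun Pool.Agent.PdSym Pool.Agent.Dep MvPolynomial

variable (T R : ℕ)

/-- Total spread of the slots. -/
def Om : ℕ := 8 * T * (R + 1)
/-- The slots. -/
def th (r : ℕ) : ℕ := 2 * Om T R + 1 + 8 * T * r
/-- The large positions. -/
def Lg (b : ℕ) : Prop := 2 * Om T R + 1 < b ∧ b ≤ 6 * Om T R + 3 ∧
  (∀ s, 1 ≤ s → s < T → ¬ (th T R (T - s) < b + 2 * s ∧ b ≤ th T R (T - s))) ∧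
  ∀ r, T ≤ r → r ≤ R → ¬ (th T R r < b + 4 * T ∧ b < th T R r)
/-- All positions. -/
def AA (b : ℕ) : Prop := b = 0 ∨ b = 2 ∨ Lg T R b
/-- Marked positions. -/
def CC (a : ℕ) : Prop := ∃ s, 1 ≤ s ∧ s ≤ T ∧ a + 2 * s = th T R (T - s) + 2

variable {T R}

lemma th_gap {r r' : ℕ} (h : r < r') : th T R r + 8 * T ≤ th T R r' := by
  have : 8 * T * (r + 1) ≤ 8 * T * r' := Nat.mul_le_mul_left _ h
  rw [Nat.mul_succ] at this
  rw [th, th]; omega
lemma th_mono {r r' : ℕ} (h : r ≤ r') : th T R r ≤ th T R r' := by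
  rcases h.eq_or_lt with rfl | h
  · exact le_rfl
  · have := th_gap (T := T) (R := R) h; omega
lemma th_ge (r : ℕ) : 2 * Om T R + 1 ≤ th T R r := Nat.le_add_right _ _
lemma th_le {r : ℕ} (h : r ≤ R) : th T R r + 8 * T ≤ 3 * Om T R + 1 := by
  have := th_gap (T := T) (R := R) (Nat.lt_succ_of_le h)
  have h1 : th T R (R + 1) = 2 * Om T R + 1 + Om T R := rfl
  have := th_mono (T := T) (R := R) (le_refl (R + 1))
  simp only [Nat.succ_eq_add_one] at *
  omega
lemma Om_ge : 8 * T ≤ Om T R := Nat.le_mul_of_pos_right _ (by omega)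
lemma th_zero : th T R 0 = 2 * Om T R + 1 := by simp [th]

lemma A0 : AA T R 0 := Or.inl rfl
lemma A2 : AA T R 2 := Or.inr (Or.inl rfl)

lemma A_big (hT : 1 ≤ T) (hR : T ≤ R) (b : ℕ) (h1 : 3 * Om T R + 1 ≤ b) (h2 : b ≤ 6 * Om T R + 3) :
    AA T R b := by
  have := Om_ge (T := T) (R := R)
  refine Or.inr (Or.inr ⟨by omega, h2, fun s _ _ h => ?_, fun r _ h3 h => ?_⟩)
  · have := th_le (T := T) (R := R) (r := T - s) (by omega)
    omega
  · have := th_le (T := T) h3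
    omega

lemma small : ∀ {t a : ℕ}, SumS (AA T R) t a → a ≤ 2 * Om T R + 1 → ∃ i ≤ t, a = 2 * i
  | 0, _, h, _ => ⟨0, le_rfl, h⟩
  | _ + 1, _, ⟨a, ha, r, hr, e⟩, h => by
    obtain ⟨i, h1, h2⟩ := small hr (by omega)
    rcases ha with ha | ha | ha
    · exact ⟨i, by omega, by omega⟩
    · exact ⟨i + 1, by omega, by omega⟩
    · have := ha.1; omega

lemma split : ∀ {t b : ℕ}, SumS (AA T R) (t + 1) b → b ≤ 3 * Om T R + 1 →
    b ≤ 2 * (t + 1) ∨ ∃ a i, Lg T R a ∧ i ≤ t ∧ b = a + 2 * i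
  | t, _, ⟨a, Or.inr (Or.inr ha), r, hr, e⟩, h => by
    have := ha.1
    obtain ⟨i, h1, h2⟩ := small hr (by omega)
    exact Or.inr ⟨a, i, ha, h1, by omega⟩
  | 0, _, ⟨a, Or.inl ha, r, hr, e⟩, _ => Or.inl (by obtain rfl : r = 0 := hr; omega)
  | 0, _, ⟨a, Or.inr (Or.inl ha), r, hr, e⟩, _ => Or.inl (by obtain rfl : r = 0 := hr; omega)
  | t + 1, _, ⟨a, Or.inl ha, r, hr, e⟩, h => by
    rcases split hr (by omega) with h1 | ⟨a', i, h1, h2, h3⟩
    · left; omega
    · exact Or.inr ⟨a', i, h1, by omega, by omega⟩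
  | t + 1, _, ⟨a, Or.inr (Or.inl ha), r, hr, e⟩, h => by
    rcases split hr (by omega) with h1 | ⟨a', i, h1, h2, h3⟩
    · left; omega
    · exact Or.inr ⟨a', i + 1, h1, by omega, by omega⟩

lemma unitW (hR : T ≤ R) {s b : ℕ} (hs : s < T) (h0 : 1 ≤ s) (h1 : th T R (T - s) < b + 2 * s)
    (h2 : b ≤ th T R (T - s)) : SumS (AA T R) (s + 1) b := by
  have a1 := th_gap (T := T) (R := R) (r := 0) (r' := T - s) (by omega)
  have a2 := th_le (T := T) (R := R) (r := T - s) (by omega)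
  rw [th_zero] at a1
  refine ⟨b - 2 * s, Or.inr (Or.inr ⟨by omega, by omega, fun s' h8 h9 h => ?_,
    fun r h8 h9 h => ?_⟩), _, SumS.mul A2 s, by omega⟩
  · rcases lt_trichotomy s' s with h11 | rfl | h11
    · have := th_gap (T := T) (R := R) (r := T - s) (r' := T - s') (by omega)
      omega
    · omega
    · have := th_gap (T := T) (R := R) (r := T - s') (r' := T - s) (by omega)
      omega
  · have := th_gap (T := T) (R := R) (r := T - s) (r' := r) (by omega)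
    omega

lemma unit_big (hT : 1 ≤ T) (hR : T ≤ R) {t b : ℕ} (h1 : 3 * Om T R + 1 ≤ b)
    (h2 : b ≤ (6 * Om T R + 3) * (t + 1)) : SumS (AA T R) (t + 1) b :=
  sum_big A0 (A_big hT hR) (by omega) t b h1 h2

lemma not_Lg {b : ℕ} (h : ¬ Lg T R b) (h1 : 2 * Om T R + 1 < b) (h2 : b ≤ 6 * Om T R + 3) :
    (∃ s, 1 ≤ s ∧ s < T ∧ th T R (T - s) < b + 2 * s ∧ b ≤ th T R (T - s)) ∨
      ∃ r, T ≤ r ∧ r ≤ R ∧ th T R r < b + 4 * T ∧ b < th T R r := by
  by_contra h3
  rw [not_or] at h3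
  exact h ⟨h1, h2, fun s a1 a2 a3 => h3.1 ⟨s, a1, a2, a3⟩, fun r a1 a2 a3 => h3.2 ⟨r, a1, a2, a3⟩⟩

lemma unit_all (hT : 1 ≤ T) (hR : T ≤ R) {t b : ℕ} (ht : 2 * T ≤ t) (h1 : 2 * Om T R + 1 < b)
    (h2 : b ≤ (6 * Om T R + 3) * (t + 1)) : SumS (AA T R) (t + 1) b := by
  by_cases h3 : 3 * Om T R + 1 ≤ b
  · exact unit_big hT hR h3 h2
  by_cases h4 : Lg T R b
  · exact (SumS.one.2 (Or.inr (Or.inr h4) : AA T R b)).mono A0 (by omega)
  rcases not_Lg h4 h1 (by omega) with ⟨s, a1, a2, a3, a4⟩ | ⟨r, a1, a2, a3, a4⟩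
  · exact (unitW hR a2 a1 a3 a4).mono A0 (by omega)
  · have b1 := th_gap (T := T) (R := R) (r := 0) (r' := r) (by omega)
    rw [th_zero] at b1
    refine SumS.mono A0 (s := 2 * T + 1) ⟨b - 4 * T, Or.inr (Or.inr ⟨by omega, by omega,
      fun s' h8 h9 h => ?_, fun r' h8 h9 h => ?_⟩), _, SumS.mul A2 _, by omega⟩ (by omega)
    · have := th_gap (T := T) (R := R) (r := T - s') (r' := r) (by omega)
      omega
    · rcases lt_trichotomy r' r with h11 | rfl | h11
      · have := th_gap (T := T) (R := R) h11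
        omega
      · omega
      · have := th_gap (T := T) (R := R) h11
        omega

lemma A_th (hT : 1 ≤ T) {r : ℕ} (h1 : T ≤ r) (h2 : r ≤ R) : AA T R (th T R r) := by
  have b1 := th_gap (T := T) (R := R) (r := 0) (r' := r) (by omega)
  have b2 := th_le (T := T) h2
  rw [th_zero] at b1
  refine Or.inr (Or.inr ⟨by omega, by omega, fun s h8 h9 h => ?_, fun r' h8 h9 h => ?_⟩)
  · have := th_gap (T := T) (R := R) (r := T - s) (r' := r) (by omega)
    omega
  · rcases lt_trichotomy r' r with h11 | rfl | h11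
    · have := th_gap (T := T) (R := R) h11
      omega
    · omega
    · have := th_gap (T := T) (R := R) h11
      omega

lemma C_bd (hR : T ≤ R) {a : ℕ} (h : CC T R a) : 2 * Om T R + 3 ≤ a + 2 * T ∧
    a ≤ th T R (T - 1) ∧ a + 8 * T ≤ 3 * Om T R + 1 := by
  obtain ⟨s, h1, h2, h3⟩ := h
  have := th_ge (T := T) (R := R) (T - s)
  have := th_mono (T := T) (R := R) (r := T - s) (r' := T - 1) (by omega)
  have := th_le (T := T) (R := R) (r := T - s) (by omega)
  omega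

section main
variable {J : Type} {m : ℕ} (lev sl : J → ℕ) (idx : J → Fin m) (hT : 1 ≤ T) (hR : T ≤ R)
  (h1 : ∀ j, 1 ≤ lev j ∧ lev j ≤ T) (h2 : ∀ j, T ≤ sl j ∧ sl j ≤ R)

/-- The data of the construction. -/
def dat : Dat (Fin (m + 2)) J where
  x := 0
  y := 1
  z j := (idx j).succ.succ
  d := 6 * Om T R + 3
  A := AA T R
  C := CC T R
  c j := th T R (T - lev j) + 2 - 2 * lev j
  e j := th T R (sl j) + 2 - 2 * lev j
  hxy := by simp
  hx j := Fin.succ_ne_zero _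
  hy j := fun h => Fin.succ_ne_zero _ (Fin.succ_injective _ h)
  h0 := A0
  hd := A_big hT hR _ (by omega) le_rfl
  hA := by
    rintro a (h | h | h)
    · omega
    · omega
    · exact h.2.1
  hC a h := by have := C_bd hR h; omega
  hc j := ⟨lev j, (h1 j).1, (h1 j).2, by
    have := h1 j
    have := th_ge (T := T) (R := R) (T - lev j)
    have := Om_ge (T := T) (R := R)
    omega⟩
  he j := by have := th_le (T := T) (h2 j).2; omega
  hCC a b ha hb := by
    have := C_bd hR ha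
    have := C_bd hR hb
    have := Om_ge (T := T) (R := R)
    exact unit_big hT hR (by omega) (by omega)
  hce a j ha := by
    have := C_bd hR ha
    have := th_le (T := T) (h2 j).2
    have := th_ge (T := T) (R := R) (sl j)
    have := h1 j
    have := Om_ge (T := T) (R := R)
    exact unit_big hT hR (by omega) (by omega)

lemma notH {t r e : ℕ} (ht : t + 1 < T) (r1 : T ≤ r) (r2 : r ≤ R) (e1 : th T R r + 2 ≤ e + 2 * T)
    (e2 : e < th T R r) : ¬ (dat lev sl idx hT hR h1 h2).H (t + 1) e := by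
  have b1 := th_ge (T := T) (R := R) r
  have b2 := th_le (T := T) r2
  have b3 := Om_ge (T := T) (R := R)
  rintro ⟨b, ε, a1, a2, a3 | ⟨c, a, a3, a4, a5⟩⟩
  · rcases split a3 (by omega) with a4 | ⟨a, i, a4, a5, a6⟩
    · omega
    · have := a4.2.2.2 r r1 r2
      omega
  · have := C_bd hR a3
    have := th_gap (T := T) (R := R) (r := T - 1) (r' := r) (by omega)
    obtain ⟨i, a6, a7⟩ := small a4 (by omega)
    omega

lemma uniq (h3 : Function.Injective sl) (t : ℕ) (j j' : J) (a a' : ℕ) (ha : SumS (AA T R) t a)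
    (ha' : SumS (AA T R) t a') (e : (dat lev sl idx hT hR h1 h2).e j + a =
      (dat lev sl idx hT hR h1 h2).e j' + a') (h : ¬ (dat lev sl idx hT hR h1 h2).H (t + 1)
        ((dat lev sl idx hT hR h1 h2).e j + a)) : j = j' := by
  have b0 : ¬ SumS (AA T R) (t + 1) (th T R (sl j) + 2 - 2 * lev j + a) := fun h' =>
    h ⟨_, 0, by omega, rfl, Dat.V_of h'⟩
  change th T R (sl j) + 2 - 2 * lev j + a = th T R (sl j') + 2 - 2 * lev j' + a' at e
  have b1 := th_gap (T := T) (R := R) (r := 0) (r' := sl j) (by have := h2 j; omega)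
  have b2 := th_gap (T := T) (R := R) (r := 0) (r' := sl j') (by have := h2 j'; omega)
  rw [th_zero] at b1 b2
  have b3 := th_le (T := T) (h2 j).2
  have b4 := h1 j
  have b5 := h1 j'
  have b6 : a ≤ (6 * Om T R + 3) * t := ha.le (dat lev sl idx hT hR h1 h2).hA
  have b7 := mt (unit_big hT hR · (by rw [Nat.mul_succ]; omega)) b0
  have b8 := mt (unit_all hT hR · (by omega) (by rw [Nat.mul_succ]; omega)) b0
  obtain ⟨i, c1, c2⟩ := small ha (by omega)
  obtain ⟨i', c3, c4⟩ := small ha' (by omega)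
  refine h3 ?_
  rcases lt_trichotomy (sl j) (sl j') with h4 | h4 | h4
  · have := th_gap (T := T) (R := R) h4
    omega
  · exact h4
  · have := th_gap (T := T) (R := R) h4
    omega

variable [Fintype J] {φ : ℕ → ℕ} (h4 : ∀ j, (idx j : ℕ) < φ (lev j)) (h5 : ∀ t, φ t ≤ m)
  (h6 : ∀ s (i : Fin m), 1 ≤ s → s ≤ T → i < φ s → ∃ j, lev j = s ∧ idx j = i)
  (h8 : ∀ t, T ≤ t → φ t = φ T)

lemma card_lt {n : ℕ} (h : n ≤ m) : ((Finset.univ.filter fun i : Fin m => (i : ℕ) < n).image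
    fun i => i.succ.succ).card = n := by
  rw [Finset.card_image_of_injective _ fun _ _ h => Fin.succ_injective _ (Fin.succ_injective _ h),
    Fin.card_filter_val_lt, min_eq_right h]

include h4 h5 h8 in
lemma upper (t b : ℕ) (hV : (dat lev sl idx hT hR h1 h2).V (t + 1) b)
    (hU : ¬ SumS (AA T R) (t + 1) b) : ((dat lev sl idx hT hR h1 h2).F t b).card ≤ φ (t + 1) := by
  have b0 : b ≤ (6 * Om T R + 3) * (t + 1) := Dat.V_le hV
  have b1 := mt (unit_big hT hR · b0) hU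
  have b2 := Om_ge (T := T) (R := R)
  have hF : ∀ j a, SumS (AA T R) t a → b = th T R (T - lev j) + 2 - 2 * lev j + a →
      ∃ i ≤ t, a = 2 * i := fun j a c1 c2 => small c1 (by
    have := th_ge (T := T) (R := R) (T - lev j)
    have := h1 j
    omega)
  obtain ⟨s, hs, hs', hlev⟩ : ∃ s, s ≤ T ∧ (s ≤ t + 1 → φ s = φ (t + 1)) ∧ ∀ j i, i ≤ t →
      b = th T R (T - lev j) + 2 - 2 * lev j + 2 * i → lev j = s := by
    by_cases hb2 : b ≤ 2 * Om T R + 1
    · refine ⟨T, le_rfl, fun h => (h8 _ h).symm, fun j i _ e => ?_⟩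
      by_contra hne
      have := h1 j
      have := th_gap (T := T) (R := R) (r := 0) (r' := T - lev j) (by omega)
      rw [th_zero] at this
      omega
    have hA : ¬ Lg T R b := fun h =>
      hU ((SumS.one.2 (Or.inr (Or.inr h) : AA T R b)).mono A0 (by omega))
    rcases not_Lg hA (by omega) (by omega) with ⟨s, a1, a2, a3, a4⟩ | ⟨r, a1, a2, a3, a4⟩
    · have hts : t + 1 ≤ s := by
        by_contra h
        exact hU ((unitW hR a2 a1 a3 a4).mono A0 (by omega))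
      refine ⟨s, a2.le, fun h => by rw [le_antisymm h hts], fun j i c1 c2 => ?_⟩
      have := h1 j
      have := th_ge (T := T) (R := R) (T - lev j)
      rcases lt_trichotomy (lev j) s with h | h | h
      · have := th_gap (T := T) (R := R) (r := T - s) (r' := T - lev j) (by omega)
        omega
      · exact h
      · have := th_gap (T := T) (R := R) (r := T - lev j) (r' := T - s) (by omega)
        omega
    · refine ⟨T, le_rfl, fun h => (h8 _ h).symm, fun j i c1 c2 => ?_⟩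
      have := mt (unit_all hT hR · (by omega) b0) hU
      have := h1 j
      have := th_gap (T := T) (R := R) (r := T - lev j) (r' := r) (by omega)
      omega
  by_cases hst : s ≤ t + 1
  · rw [← hs' hst, ← card_lt (h5 s)]
    refine Finset.card_le_card fun v hv => ?_
    obtain ⟨j, ⟨a, c1, c2, -⟩, rfl⟩ := Dat.mem_F.1 hv
    obtain ⟨i, c3, rfl⟩ := hF j a c1 c2
    exact Finset.mem_image.2 ⟨idx j, by simpa [← hlev j i c3 c2] using h4 j, rfl⟩
  · refine le_trans (Finset.card_eq_zero.2 (Finset.eq_empty_of_forall_notMem fun v hv => ?_)).le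
      (Nat.zero_le _)
    obtain ⟨j, ⟨a, c1, c2, c4⟩, rfl⟩ := Dat.mem_F.1 hv
    obtain ⟨i, c3, rfl⟩ := hF j a c1 c2
    have := hlev j i c3 c2
    have := th_ge (T := T) (R := R) (sl j)
    refine notH lev sl idx hT hR h1 h2 (by omega) (h2 j).1 (h2 j).2 ?_ ?_ c4
    · change _ ≤ th T R (sl j) + 2 - 2 * lev j + 2 * i + 2 * T
      omega
    · change th T R (sl j) + 2 - 2 * lev j + 2 * i < _
      omega

include h5 h6 h8 in
lemma lower (t : ℕ) : ∃ b, (dat lev sl idx hT hR h1 h2).V (t + 1) b ∧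
    ¬ SumS (AA T R) (t + 1) b ∧ φ (t + 1) ≤ ((dat lev sl idx hT hR h1 h2).F t b).card := by
  have b2 := Om_ge (T := T) (R := R)
  obtain ⟨s, s1, s2, s3, s4, s5⟩ : ∃ s, 1 ≤ s ∧ s ≤ T ∧ s ≤ t + 1 ∧ φ (t + 1) = φ s ∧
      ¬ SumS (AA T R) (t + 1) (th T R (T - s)) := by
    by_cases h : t + 1 < T
    · refine ⟨t + 1, by omega, h.le, le_rfl, rfl, fun hs => ?_⟩
      have := th_ge (T := T) (R := R) (T - (t + 1))
      have := th_le (T := T) (R := R) (r := T - (t + 1)) (by omega)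
      rcases split hs (by omega) with h5 | ⟨a, i, ha, c1, c2⟩
      · omega
      · have := ha.2.2.1 (t + 1) (by omega) h
        omega
    · refine ⟨T, hT, le_rfl, by omega, h8 _ (by omega), fun hs => ?_⟩
      rw [Nat.sub_self, th_zero] at hs
      obtain ⟨i, -, h⟩ := small hs le_rfl
      omega
  have b1 := th_ge (T := T) (R := R) (T - s)
  have b3 : SumS (AA T R) t ((s - 1) * 2) := (SumS.mul A2 _).mono A0 (by omega)
  refine ⟨th T R (T - s), Or.inr ⟨th T R (T - s) + 2 - 2 * s, _, ⟨s, s1, s2, by omega⟩, b3,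
    by omega⟩, s5, ?_⟩
  rw [s4, ← card_lt (h5 s)]
  refine Finset.card_le_card fun v hv => ?_
  obtain ⟨i, hi, rfl⟩ := Finset.mem_image.1 hv
  obtain ⟨j, rfl, rfl⟩ := h6 s i s1 s2 (by simpa using hi)
  have := th_ge (T := T) (R := R) (sl j)
  refine Dat.mem_F.2 ⟨j, ⟨_, b3, ?_, th T R (sl j), 0, by omega, ?_,
    Dat.V_of ((SumS.one.2 (A_th hT (h2 j).1 (h2 j).2)).mono A0 (by omega))⟩, rfl⟩
  · change _ = th T R (T - lev j) + 2 - 2 * lev j + _
    omega
  · change th T R (sl j) + 2 - 2 * lev j + _ = _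
    omega

end main

theorem main (k : Type) [Field k] (f : ℕ → ℕ) (m T : ℕ) (hT : 1 ≤ T) (h1 : ∀ t, 1 ≤ t → f t ≤ m)
    (h8 : ∀ t, T ≤ t → f t = f T) : ∃ Q : Ideal (MvPolynomial (Fin (m + 2)) k),
      (∃ s : Set (MvPolynomial (Fin (m + 2)) k), (∀ p ∈ s, ∃ d : ℕ, IsHomogeneous p d) ∧
        Q = Ideal.span s) ∧ Q ≠ ⊥ ∧ ∀ t, DP (mm k (m + 2)) (_ ⧸ Q ^ (t + 1)) (f (t + 1)) ∧
          ¬ DP (mm k (m + 2)) (_ ⧸ Q ^ (t + 1)) (f (t + 1) + 1) := by
  classical
  let J := {p : Fin (T + 1) × Fin m // 1 ≤ (p.1 : ℕ) ∧ (p.2 : ℕ) < m - f p.1}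
  let e := Fintype.equivFin J
  have a1 : ∀ j : J, 1 ≤ (j.1.1 : ℕ) ∧ (j.1.1 : ℕ) ≤ T := fun j => ⟨j.2.1, by have := j.1.1.2; omega⟩
  have a2 : ∀ j : J, T ≤ T + (e j : ℕ) ∧ T + (e j : ℕ) ≤ T + Fintype.card J := fun j => by
    have := (e j).2; omega
  have a8 : ∀ t, T ≤ t → m - f t = m - f T := fun t h => by rw [h8 t h]
  set P := dat (fun j : J => (j.1.1 : ℕ)) (fun j => T + (e j : ℕ)) (fun j => j.1.2) hT
    (Nat.le_add_right _ _) a1 a2
  refine ⟨MI k (P.E 1) ⊔ P.G k, Dat.homog, fun h => ?_, fun t => Dat.depth_pow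
    (φ := m - f (t + 1)) (uniq _ _ _ hT _ a1 a2 (fun j j' h => e.injective (Fin.ext (by
      simpa using h))) t) (upper _ _ _ hT _ a1 a2 (φ := fun t => m - f t) (fun j => j.2.2)
      (fun _ => Nat.sub_le _ _) a8 t) ?_ (lower _ _ _ hT _ a1 a2 (φ := fun t => m - f t)
      (fun _ => Nat.sub_le _ _) (fun s i b1 b2 b3 => ⟨⟨(⟨s, by omega⟩, i), b1, b3⟩, rfl, rfl⟩)
      a8 t)⟩
  · have : monomial (Finsupp.single P.x (P.d * 1 + 2)) (1 : k) ∈ MI k (P.E 1) ⊔ P.G k :=
      Ideal.mem_sup_left (mono_mem_MI (Or.inl (by simp)))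
    simp [h] at this
  · have := h1 (t + 1) (by omega)
    rw [Fintype.card_fin]
    omega

end Pool.Agent.Nf
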